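import Pool.Agent.Helper25_CN3.Stmts
import Pool.Agent.Helper50_CON.AInd

/-!
Squad CN3 (MP_6d18f4_al, Q2), module X_D44: in the lattice U + D_4 + D_4 + A_1 the reflections
preserve the family of the classes of Rad(L,2) modulo 2 L coming from the first D_4.
-/

noncomputable section

namespace Pool.Agent.CN3.H4

open Pool.Agent.H25Cong Pool.Agent.CON Pool.Agent.CN2

/-- the integral form of U + D_4 + D_4 + A_1 -/
def bb (x y : Fin (10 + 1) → ℤ) : ℤ :=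
  -(x 0 * y 1) - x 1 * y 0 +
  (2 * (x 2 * y 2) + 2 * (x 3 * y 3) + 2 * (x 4 * y 4) + 2 * (x 5 * y 5)
    - x 2 * y 3 - x 3 * y 2 - x 3 * y 4 - x 4 * y 3 - x 3 * y 5 - x 5 * y 3) +
  (2 * (x 6 * y 6) + 2 * (x 7 * y 7) + 2 * (x 8 * y 8) + 2 * (x 9 * y 9)
    - x 6 * y 7 - x 7 * y 6 - x 7 * y 8 - x 8 * y 7 - x 7 * y 9 - x 9 * y 7) +
  2 * (x 10 * y 10)

/-- half of the norm -/
def hh (x : Fin (10 + 1) → ℤ) : ℤ :=
  -(x 0 * x 1) +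
  (x 2 * x 2 + x 3 * x 3 + x 4 * x 4 + x 5 * x 5 - x 3 * (x 2 + x 4 + x 5)) +
  (x 6 * x 6 + x 7 * x 7 + x 8 * x 8 + x 9 * x 9 - x 7 * (x 6 + x 8 + x 9)) +
  x 10 * x 10

/-- the classes -/
def PY (x : Fin (10 + 1) → ℤ) : Prop :=
  x 0 % 2 = 0 ∧ x 1 % 2 = 0 ∧ x 3 % 2 = 0 ∧ x 6 % 2 = 0 ∧ x 7 % 2 = 0 ∧ x 8 % 2 = 0 ∧
  x 9 % 2 = 0 ∧ x 10 % 2 = 0 ∧ (x 2 + x 4 + x 5) % 2 = 0 ∧
  ¬ (x 2 % 2 = 0 ∧ x 4 % 2 = 0 ∧ x 5 % 2 = 0)

lemma bb_self (x : Fin (10 + 1) → ℤ) : bb x x = 2 * hh x := by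
  unfold bb hh
  ring

/-- the matrix -/
def MM : Fin (10 + 1) → Fin (10 + 1) → ℤ :=
  ![![0, -1, 0, 0, 0, 0, 0, 0, 0, 0, 0],
    ![-1, 0, 0, 0, 0, 0, 0, 0, 0, 0, 0],
    ![0, 0, 2, -1, 0, 0, 0, 0, 0, 0, 0],
    ![0, 0, -1, 2, -1, -1, 0, 0, 0, 0, 0],
    ![0, 0, 0, -1, 2, 0, 0, 0, 0, 0, 0],
    ![0, 0, 0, -1, 0, 2, 0, 0, 0, 0, 0],
    ![0, 0, 0, 0, 0, 0, 2, -1, 0, 0, 0],
    ![0, 0, 0, 0, 0, 0, -1, 2, -1, -1, 0],
    ![0, 0, 0, 0, 0, 0, 0, -1, 2, 0, 0],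
    ![0, 0, 0, 0, 0, 0, 0, -1, 0, 2, 0],
    ![0, 0, 0, 0, 0, 0, 0, 0, 0, 0, 2]]

lemma ent_MM : ∀ i j : Fin (10 + 1),
    ent (blk hyp (gr [(.D 4, 1), (.D 4, 1), (.A 1, 1)])) i j = MM i j := by
  decide

lemma sum_MM (x y : Fin (10 + 1) → ℤ) : ∑ i, ∑ j, x i * y j * MM i j = bb x y := by
  unfold bb
  simp [Fin.sum_univ_succ, MM]
  ring

lemma sq4 (a : ℤ) : (a * a) % 4 = a % 2 := by
  rcases Int.even_or_odd' a with ⟨k, rfl | rfl⟩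
  · have : 2 * k * (2 * k) = 4 * (k * k) := by ring
    omega
  · have : (2 * k + 1) * (2 * k + 1) = 4 * (k * k + k) + 1 := by ring
    omega

/-- the half norm of a root is 1 or 2 -/
lemma root_m {r : Fin (10 + 1) → ℤ} (hpos : 0 < hh r) (k : Fin (10 + 1) → ℤ)
    (h0 : -r 1 = k 0 * hh r) (h1 : -r 0 = k 1 * hh r)
    (h2 : 2 * r 2 - r 3 = k 2 * hh r) (h3 : 2 * r 3 - r 2 - r 4 - r 5 = k 3 * hh r)
    (h4 : 2 * r 4 - r 3 = k 4 * hh r) (h5 : 2 * r 5 - r 3 = k 5 * hh r)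
    (h6 : 2 * r 6 - r 7 = k 6 * hh r) (h7 : 2 * r 7 - r 6 - r 8 - r 9 = k 7 * hh r)
    (h8 : 2 * r 8 - r 7 = k 8 * hh r) (h9 : 2 * r 9 - r 7 = k 9 * hh r)
    (h10 : 2 * r 10 = k 10 * hh r)
    (hpr : ∀ m : ℤ, 0 < m → (∀ i, m ∣ r i) → m = 1) : hh r = 1 ∨ hh r = 2 := by
  have e3 : r 3 = (k 2 + k 4 + k 5 + 2 * k 3) * hh r := by linear_combination h2 + h4 + h5 + 2 * h3
  have e7 : r 7 = (k 6 + k 8 + k 9 + 2 * k 7) * hh r := by linear_combination h6 + h8 + h9 + 2 * h7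
  have d0 : hh r ∣ 2 * r 0 := ⟨-2 * k 1, by linear_combination -2 * h1⟩
  have d1 : hh r ∣ 2 * r 1 := ⟨-2 * k 0, by linear_combination -2 * h0⟩
  have d2 : hh r ∣ 2 * r 2 :=
    ⟨k 2 + (k 2 + k 4 + k 5 + 2 * k 3), by linear_combination h2 + e3⟩
  have d3 : hh r ∣ 2 * r 3 := ⟨2 * (k 2 + k 4 + k 5 + 2 * k 3), by linear_combination 2 * e3⟩
  have d4 : hh r ∣ 2 * r 4 :=
    ⟨k 4 + (k 2 + k 4 + k 5 + 2 * k 3), by linear_combination h4 + e3⟩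
  have d5 : hh r ∣ 2 * r 5 :=
    ⟨k 5 + (k 2 + k 4 + k 5 + 2 * k 3), by linear_combination h5 + e3⟩
  have d6 : hh r ∣ 2 * r 6 :=
    ⟨k 6 + (k 6 + k 8 + k 9 + 2 * k 7), by linear_combination h6 + e7⟩
  have d7 : hh r ∣ 2 * r 7 := ⟨2 * (k 6 + k 8 + k 9 + 2 * k 7), by linear_combination 2 * e7⟩
  have d8 : hh r ∣ 2 * r 8 :=
    ⟨k 8 + (k 6 + k 8 + k 9 + 2 * k 7), by linear_combination h8 + e7⟩
  have d9 : hh r ∣ 2 * r 9 :=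
    ⟨k 9 + (k 6 + k 8 + k 9 + 2 * k 7), by linear_combination h9 + e7⟩
  have d10 : hh r ∣ 2 * r 10 := ⟨k 10, by linear_combination h10⟩
  have d : ∀ i, hh r ∣ 2 * r i := by
    intro i
    fin_cases i
    exacts [d0, d1, d2, d3, d4, d5, d6, d7, d8, d9, d10]
  rcases Int.even_or_odd' (hh r) with ⟨m, hm | hm⟩
  · right
    have : m = 1 := by
      refine hpr m (by omega) fun i => ?_
      obtain ⟨c, hc⟩ := d i
      refine ⟨c, ?_⟩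
      have : (2 : ℤ) * r i = 2 * (m * c) := by rw [hc, hm]; ring
      omega
    omega
  · left
    refine hpr (hh r) hpos fun i => ?_
    obtain ⟨c, hc⟩ := d i
    refine ⟨r i - m * c, ?_⟩
    linear_combination (-(r i)) * hm - m * hc

/-- the reflection in a vector of norm 2 -/
lemma core1 {r x : Fin (10 + 1) → ℤ} (hx : PY x) : bb x r % 2 = 0 := by
  obtain ⟨h0, h1, h3, h6, h7, h8, h9, h10, hs, -⟩ := hx
  obtain ⟨y0, e0⟩ := Int.dvd_of_emod_eq_zero h0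
  obtain ⟨y1, e1⟩ := Int.dvd_of_emod_eq_zero h1
  obtain ⟨y3, e3⟩ := Int.dvd_of_emod_eq_zero h3
  obtain ⟨y6, e6⟩ := Int.dvd_of_emod_eq_zero h6
  obtain ⟨y7, e7⟩ := Int.dvd_of_emod_eq_zero h7
  obtain ⟨y8, e8⟩ := Int.dvd_of_emod_eq_zero h8
  obtain ⟨y9, e9⟩ := Int.dvd_of_emod_eq_zero h9
  obtain ⟨y10, e10⟩ := Int.dvd_of_emod_eq_zero h10
  obtain ⟨s, es⟩ := Int.dvd_of_emod_eq_zero hs
  have : bb x r = 2 * (-(y0 * r 1) - y1 * r 0 + (x 2 * r 2 + 2 * y3 * r 3 + x 4 * r 4 + x 5 * r 5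
      - y3 * r 2 - y3 * r 4 - y3 * r 5 - s * r 3) + (2 * y6 * r 6 + 2 * y7 * r 7 + 2 * y8 * r 8
      + 2 * y9 * r 9 - y6 * r 7 - y7 * r 6 - y7 * r 8 - y8 * r 7 - y7 * r 9 - y9 * r 7)
      + 2 * y10 * r 10) := by
    unfold bb
    rw [e0, e1, e3, e6, e7, e8, e9, e10]
    linear_combination -(r 3) * es
  rw [this]
  simp

/-- parities of a root of norm 4 -/
lemma core2r {r : Fin (10 + 1) → ℤ} (hN : hh r = 2) (h0 : r 0 % 2 = 0) (h1 : r 1 % 2 = 0)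
    (h3 : r 3 % 2 = 0) (h7 : r 7 % 2 = 0) (hs : (r 2 + r 4 + r 5) % 2 = 0)
    (ht : (r 6 + r 8 + r 9) % 2 = 0) :
    r 10 % 2 = 0 ∧ ((r 2 % 2 = 0 ∧ r 4 % 2 = 0 ∧ r 5 % 2 = 0) ∨
      (r 6 % 2 = 0 ∧ r 8 % 2 = 0 ∧ r 9 % 2 = 0)) := by
  obtain ⟨y0, e0⟩ := Int.dvd_of_emod_eq_zero h0
  obtain ⟨y1, e1⟩ := Int.dvd_of_emod_eq_zero h1
  obtain ⟨y3, e3⟩ := Int.dvd_of_emod_eq_zero h3
  obtain ⟨y7, e7⟩ := Int.dvd_of_emod_eq_zero h7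
  obtain ⟨s, es⟩ := Int.dvd_of_emod_eq_zero hs
  obtain ⟨t, et⟩ := Int.dvd_of_emod_eq_zero ht
  have q2 := sq4 (r 2)
  have q4 := sq4 (r 4)
  have q5 := sq4 (r 5)
  have q6 := sq4 (r 6)
  have q8 := sq4 (r 8)
  have q9 := sq4 (r 9)
  have q10 := sq4 (r 10)
  have : r 2 * r 2 + r 4 * r 4 + r 5 * r 5 + r 6 * r 6 + r 8 * r 8 + r 9 * r 9 + r 10 * r 10 =
      2 + 4 * (y0 * y1 - y3 * y3 + y3 * s - y7 * y7 + y7 * t) := by
    unfold hh at hN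
    rw [es, et, e0, e1, e3, e7] at hN
    linear_combination hN
  generalize r 2 * r 2 = z2 at *
  generalize r 4 * r 4 = z4 at *
  generalize r 5 * r 5 = z5 at *
  generalize r 6 * r 6 = z6 at *
  generalize r 8 * r 8 = z8 at *
  generalize r 9 * r 9 = z9 at *
  generalize r 10 * r 10 = z10 at *
  generalize (y0 * y1 - y3 * y3 + y3 * s - y7 * y7 + y7 * t) = u at *
  omega

/-- the multiplier of the reflection in a root of norm 4 -/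
lemma core2c {r x : Fin (10 + 1) → ℤ} {c : ℤ} (hx : PY x) (h0 : r 0 % 2 = 0) (h1 : r 1 % 2 = 0)
    (h3 : r 3 % 2 = 0) (h7 : r 7 % 2 = 0) (hs : (r 2 + r 4 + r 5) % 2 = 0)
    (ht : (r 6 + r 8 + r 9) % 2 = 0) (hc : bb x r = 2 * c) :
    (c - (x 2 * r 2 + x 4 * r 4 + x 5 * r 5)) % 2 = 0 := by
  obtain ⟨h0', h1', h3', h6', h7', h8', h9', h10', hs', -⟩ := hx
  obtain ⟨y0, e0⟩ := Int.dvd_of_emod_eq_zero h0'
  obtain ⟨y1, e1⟩ := Int.dvd_of_emod_eq_zero h1'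
  obtain ⟨y3, e3⟩ := Int.dvd_of_emod_eq_zero h3'
  obtain ⟨y6, e6⟩ := Int.dvd_of_emod_eq_zero h6'
  obtain ⟨y7, e7⟩ := Int.dvd_of_emod_eq_zero h7'
  obtain ⟨y8, e8⟩ := Int.dvd_of_emod_eq_zero h8'
  obtain ⟨y9, e9⟩ := Int.dvd_of_emod_eq_zero h9'
  obtain ⟨y10, e10⟩ := Int.dvd_of_emod_eq_zero h10'
  obtain ⟨s, es⟩ := Int.dvd_of_emod_eq_zero hs'
  obtain ⟨ρ0, f0⟩ := Int.dvd_of_emod_eq_zero h0
  obtain ⟨ρ1, f1⟩ := Int.dvd_of_emod_eq_zero h1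
  obtain ⟨ρ3, f3⟩ := Int.dvd_of_emod_eq_zero h3
  obtain ⟨ρ7, f7⟩ := Int.dvd_of_emod_eq_zero h7
  obtain ⟨σ, fs⟩ := Int.dvd_of_emod_eq_zero hs
  obtain ⟨τ, ft⟩ := Int.dvd_of_emod_eq_zero ht
  have : c - (x 2 * r 2 + x 4 * r 4 + x 5 * r 5) = 2 * (-(y0 * ρ1) - y1 * ρ0 + 2 * y3 * ρ3
      - y3 * σ - s * ρ3 + (y6 * r 6 + 2 * y7 * ρ7 + y8 * r 8 + y9 * r 9
      - y6 * ρ7 - y8 * ρ7 - y9 * ρ7 - y7 * τ) + y10 * r 10) := by
    unfold bb at hc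
    rw [e0, e1, e3, e6, e7, e8, e9, e10] at hc
    have h2 : (2 : ℤ) * (c - (x 2 * r 2 + x 4 * r 4 + x 5 * r 5)) = 2 * (2 * (-(y0 * ρ1) - y1 * ρ0
      + 2 * y3 * ρ3 - y3 * σ - s * ρ3 + (y6 * r 6 + 2 * y7 * ρ7 + y8 * r 8 + y9 * r 9
      - y6 * ρ7 - y8 * ρ7 - y9 * ρ7 - y7 * τ) + y10 * r 10)) := by
      rw [f0, f1, f3, f7] at hc
      linear_combination -hc - 2 * y3 * fs - 2 * y7 * ft - 2 * ρ3 * es
    omega
  rw [this]
  simp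

lemma core2 {r x : Fin (10 + 1) → ℤ} {c : ℤ} (hx : PY x) (hN : hh r = 2) (h0 : r 0 % 2 = 0)
    (h1 : r 1 % 2 = 0) (h3 : r 3 % 2 = 0) (h7 : r 7 % 2 = 0) (hs : (r 2 + r 4 + r 5) % 2 = 0)
    (ht : (r 6 + r 8 + r 9) % 2 = 0) (hc : bb x r = 2 * c) :
    PY (fun j => x j - c * r j) := by
  have k1 := core2c hx h0 h1 h3 h7 hs ht hc
  obtain ⟨h10, hor⟩ := core2r hN h0 h1 h3 h7 hs ht
  obtain ⟨h0', h1', h3', h6', h7', h8', h9', h10', hs', hn'⟩ := hx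
  rcases Int.even_or_odd' c with ⟨d, hd | hd⟩
  · have e : ∀ j, x j - c * r j = x j - 2 * (d * r j) := by
      intro j
      rw [hd]
      ring
    simp only [PY, e]
    refine ⟨?_, ?_, ?_, ?_, ?_, ?_, ?_, ?_, ?_, ?_⟩ <;> omega
  · have e : ∀ j, x j - c * r j = x j - 2 * (d * r j) - r j := by
      intro j
      rw [hd]
      ring
    have hr : ¬ (r 2 % 2 = 0 ∧ r 4 % 2 = 0 ∧ r 5 % 2 = 0) := by
      rintro ⟨a2, a4, a5⟩
      obtain ⟨b2, f2⟩ := Int.dvd_of_emod_eq_zero a2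
      obtain ⟨b4, f4⟩ := Int.dvd_of_emod_eq_zero a4
      obtain ⟨b5, f5⟩ := Int.dvd_of_emod_eq_zero a5
      have : x 2 * r 2 + x 4 * r 4 + x 5 * r 5 = 2 * (x 2 * b2 + x 4 * b4 + x 5 * b5) := by
        rw [f2, f4, f5]
        ring
      omega
    have h6 : r 6 % 2 = 0 ∧ r 8 % 2 = 0 ∧ r 9 % 2 = 0 := hor.resolve_left hr
    obtain ⟨h6, h8, h9⟩ := h6
    have hx' : ¬ ((x 2 - 2 * (d * r 2) - r 2) % 2 = 0 ∧ (x 4 - 2 * (d * r 4) - r 4) % 2 = 0 ∧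
        (x 5 - 2 * (d * r 5) - r 5) % 2 = 0) := by
      rintro ⟨a2, a4, a5⟩
      have g2 : ∃ u, r 2 = x 2 + 2 * u := ⟨(r 2 - x 2) / 2, by omega⟩
      have g4 : ∃ u, r 4 = x 4 + 2 * u := ⟨(r 4 - x 4) / 2, by omega⟩
      have g5 : ∃ u, r 5 = x 5 + 2 * u := ⟨(r 5 - x 5) / 2, by omega⟩
      obtain ⟨u2, g2⟩ := g2
      obtain ⟨u4, g4⟩ := g4
      obtain ⟨u5, g5⟩ := g5
      have : x 2 * r 2 + x 4 * r 4 + x 5 * r 5 = x 2 * x 2 + x 4 * x 4 + x 5 * x 5 +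
          2 * (x 2 * u2 + x 4 * u4 + x 5 * u5) := by
        rw [g2, g4, g5]
        ring
      have q2 := sq4 (x 2)
      have q4 := sq4 (x 4)
      have q5 := sq4 (x 5)
      omega
    simp only [PY, e]
    refine ⟨?_, ?_, ?_, ?_, ?_, ?_, ?_, ?_, ?_, hx'⟩ <;> omega

/-- the reflection in a root preserves the classes -/
lemma core {r x : Fin (10 + 1) → ℤ} {c : ℤ} (hx : PY x) (hpos : 0 < hh r) (k : Fin (10 + 1) → ℤ)
    (h0 : -r 1 = k 0 * hh r) (h1 : -r 0 = k 1 * hh r)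
    (h2 : 2 * r 2 - r 3 = k 2 * hh r) (h3 : 2 * r 3 - r 2 - r 4 - r 5 = k 3 * hh r)
    (h4 : 2 * r 4 - r 3 = k 4 * hh r) (h5 : 2 * r 5 - r 3 = k 5 * hh r)
    (h6 : 2 * r 6 - r 7 = k 6 * hh r) (h7 : 2 * r 7 - r 6 - r 8 - r 9 = k 7 * hh r)
    (h8 : 2 * r 8 - r 7 = k 8 * hh r) (h9 : 2 * r 9 - r 7 = k 9 * hh r)
    (h10 : 2 * r 10 = k 10 * hh r)
    (hpr : ∀ m : ℤ, 0 < m → (∀ i, m ∣ r i) → m = 1)
    (hc : bb x r = c * hh r) : PY (fun j => x j - c * r j) := by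
  rcases root_m hpos k h0 h1 h2 h3 h4 h5 h6 h7 h8 h9 h10 hpr with hm | hm
  · rw [hm, mul_one] at hc
    have hc2 := core1 (r := r) hx
    rw [hc] at hc2
    obtain ⟨d, hd⟩ := Int.dvd_of_emod_eq_zero hc2
    have e : ∀ j, x j - c * r j = x j - 2 * (d * r j) := by
      intro j
      rw [hd]
      ring
    obtain ⟨h0', h1', h3', h6', h7', h8', h9', h10', hs', hn'⟩ := hx
    simp only [PY, e]
    refine ⟨?_, ?_, ?_, ?_, ?_, ?_, ?_, ?_, ?_, ?_⟩ <;> omega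
  · rw [hm] at h0 h1 h2 h3 h4 h5 h6 h7 h8 h9 h10 hc
    refine core2 hx hm ?_ ?_ ?_ ?_ ?_ ?_ (by rw [hc]; ring) <;> omega

/-! ### Coordinates -/

/-- the vector with integral coordinates z -/
def vz (a : Module.Basis (Fin (10 + 1)) ℝ (V 10)) (z : Fin (10 + 1) → ℤ) : V 10 :=
  ∑ i, ((z i : ℤ) : ℝ) • a i

lemma vz_mem (a : Module.Basis (Fin (10 + 1)) ℝ (V 10)) (z : Fin (10 + 1) → ℤ) :
    vz a z ∈ LL a := by
  refine Submodule.sum_mem _ fun i _ => ?_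
  rw [Int.cast_smul_eq_zsmul]
  exact Submodule.smul_mem _ _ (Submodule.subset_span ⟨i, rfl⟩)

lemma vz_repr (a : Module.Basis (Fin (10 + 1)) ℝ (V 10)) (z : Fin (10 + 1) → ℤ)
    (i : Fin (10 + 1)) : a.repr (vz a z) i = z i := by
  unfold vz
  rw [Module.Basis.repr_sum_self]

lemma vz_inj (a : Module.Basis (Fin (10 + 1)) ℝ (V 10)) {y z : Fin (10 + 1) → ℤ}
    (h : vz a y = vz a z) : y = z := by
  funext i
  have := vz_repr a y i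
  rw [h, vz_repr] at this
  exact_mod_cast this.symm

lemma exists_vz (hM : V_MEM) (a : Module.Basis (Fin (10 + 1)) ℝ (V 10)) {v : V 10}
    (hv : v ∈ LL a) : ∃ z : Fin (10 + 1) → ℤ, v = vz a z := by
  choose z hz using (hM 10 a).2.2.2 v hv
  refine ⟨z, ?_⟩
  unfold vz
  conv_lhs => rw [← a.sum_repr v]
  exact Finset.sum_congr rfl fun i _ => by rw [hz]

lemma vz_sub (a : Module.Basis (Fin (10 + 1)) ℝ (V 10)) (y z : Fin (10 + 1) → ℤ) (c : ℤ) :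
    vz a y - (c : ℝ) • vz a z = vz a (fun j => y j - c * z j) := by
  unfold vz
  rw [Finset.smul_sum, ← Finset.sum_sub_distrib]
  refine Finset.sum_congr rfl fun i _ => ?_
  rw [smul_smul, ← sub_smul]
  push_cast
  rfl

lemma B_vz {a : Module.Basis (Fin (10 + 1)) ℝ (V 10)}
    (hG : BG a (blk hyp (gr [(.D 4, 1), (.D 4, 1), (.A 1, 1)]))) (x y : Fin (10 + 1) → ℤ) :
    B (vz a x) (vz a y) = ((bb x y : ℤ) : ℝ) := by
  rw [← sum_MM]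
  unfold vz
  rw [B_sum_left]
  push_cast
  refine Finset.sum_congr rfl fun i _ => ?_
  rw [B_smul_left, B_sum_right, Finset.mul_sum]
  refine Finset.sum_congr rfl fun j _ => ?_
  rw [B_smul_right, hG.gram, ent_MM]
  ring

lemma B_vz_a {a : Module.Basis (Fin (10 + 1)) ℝ (V 10)}
    (hG : BG a (blk hyp (gr [(.D 4, 1), (.D 4, 1), (.A 1, 1)]))) (x : Fin (10 + 1) → ℤ)
    (j : Fin (10 + 1)) : B (vz a x) (a j) = ((∑ i, x i * MM i j : ℤ) : ℝ) := by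
  unfold vz
  rw [B_sum_left]
  push_cast
  refine Finset.sum_congr rfl fun i _ => ?_
  rw [B_smul_left, hG.gram, ent_MM]

lemma bb_comm (x y : Fin (10 + 1) → ℤ) : bb x y = bb y x := by
  unfold bb
  ring

/-- the classes, as vectors -/
def Y1 (a : Module.Basis (Fin (10 + 1)) ℝ (V 10)) : Set (V 10) := {x | ∃ z, x = vz a z ∧ PY z}

lemma S_Y1 (hM : V_MEM) {a : Module.Basis (Fin (10 + 1)) ℝ (V 10)}
    (hG : BG a (blk hyp (gr [(.D 4, 1), (.D 4, 1), (.A 1, 1)]))) {r : V 10}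
    (hr : Root (LL a) r) {x : V 10} (hx : x ∈ Y1 a) : S r x ∈ Y1 a := by
  obtain ⟨hrL, hpos, hroot, hprim⟩ := hr
  obtain ⟨z, rfl, hz⟩ := hx
  obtain ⟨ρ, rfl⟩ := exists_vz hM a hrL
  have hN : B (vz a ρ) (vz a ρ) = ((2 * hh ρ : ℤ) : ℝ) := by rw [B_vz hG, bb_self]
  have hh0 : 0 < hh ρ := by
    rw [hN] at hpos
    have : (0 : ℤ) < 2 * hh ρ := by exact_mod_cast hpos
    omega
  choose k hk using fun j : Fin (10 + 1) =>
    hroot (a j) (Submodule.subset_span ⟨j, rfl⟩)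
  have hk' : ∀ j, ∑ i, ρ i * MM i j = k j * hh ρ := by
    intro j
    have h1 := hk j
    rw [hN, B_vz_a hG] at h1
    have h2 : 2 * (∑ i, ρ i * MM i j) = k j * (2 * hh ρ) := by exact_mod_cast h1
    linarith
  obtain ⟨c, hc⟩ := hroot (vz a z) (vz_mem a z)
  rw [hN, B_vz hG] at hc
  have hc' : bb z ρ = c * hh ρ := by
    have h2 : 2 * bb ρ z = c * (2 * hh ρ) := by exact_mod_cast hc
    rw [bb_comm]
    linarith
  have hS : S (vz a ρ) (vz a z) = vz a (fun j => z j - c * ρ j) := by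
    rw [S_apply, ← vz_sub, hN, B_vz hG, hc']
    have h3 : ((2 * hh ρ : ℤ) : ℝ) ≠ 0 := by
      have : (2 * hh ρ : ℤ) ≠ 0 := by omega
      exact_mod_cast this
    have h4 : 2 * ((c * hh ρ : ℤ) : ℝ) / ((2 * hh ρ : ℤ) : ℝ) = (c : ℝ) := by
      rw [div_eq_iff h3]
      push_cast
      ring
    rw [h4]
  rw [hS]
  have g0 := hk' 0
  have g1 := hk' 1
  have g2 := hk' 2
  have g3 := hk' 3
  have g4 := hk' 4
  have g5 := hk' 5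
  have g6 := hk' 6
  have g7 := hk' 7
  have g8 := hk' 8
  have g9 := hk' 9
  have g10 := hk' 10
  simp [Fin.sum_univ_succ, MM] at g0 g1 g2 g3 g4 g5 g6 g7 g8 g9 g10
  refine ⟨_, rfl, core hz hh0 k ?_ ?_ ?_ ?_ ?_ ?_ ?_ ?_ ?_ ?_ ?_ ?_ hc'⟩
  · linarith
  · linarith
  · linarith
  · linarith
  · linarith
  · linarith
  · linarith
  · linarith
  · linarith
  · linarith
  · linarith
  · intro m hm hdiv
    choose d hd using hdiv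
    have h1 := hprim m.toNat (vz a d) (vz_mem a d) (by
      have h2 : ((m.toNat : ℕ) : ℝ) = (m : ℝ) := by
        have : ((m.toNat : ℕ) : ℤ) = m := Int.toNat_of_nonneg hm.le
        exact_mod_cast this
      rw [h2]
      unfold vz
      rw [Finset.smul_sum]
      refine Finset.sum_congr rfl fun i _ => ?_
      rw [smul_smul, hd i]
      push_cast
      rfl)
    omega

theorem x_d44 (hE : V_EVN) (hM : V_MEM) : X_D44 := by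
  intro a hG g hg h1 w hw
  have key : ∀ w ∈ RefL (LL a), (∀ x ∈ Y1 a, w x ∈ Y1 a) ∧ (∀ x ∈ Y1 a, w⁻¹ x ∈ Y1 a) := by
    intro w hw
    refine Subgroup.closure_induction (p := fun w _ => (∀ x ∈ Y1 a, w x ∈ Y1 a) ∧
      (∀ x ∈ Y1 a, w⁻¹ x ∈ Y1 a)) ?_ ?_ ?_ ?_ hw
    · rintro s ⟨hs1, hs2⟩
      obtain ⟨r, hr, rfl⟩ := CON.H50.a_REF 10 (LL a) s (hE 10 a _ hG) hs1 hs2
      rw [S_inv]
      exact ⟨fun x hx => S_Y1 hM hG hr hx, fun x hx => S_Y1 hM hG hr hx⟩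
    · refine ⟨fun x hx => hx, fun x hx => ?_⟩
      rw [inv_one]
      exact hx
    · rintro u v - - ⟨hu, hu'⟩ ⟨hv, hv'⟩
      refine ⟨fun x hx => ?_, fun x hx => ?_⟩
      · rw [LinearEquiv.mul_apply]
        exact hu _ (hv _ hx)
      · rw [mul_inv_rev, LinearEquiv.mul_apply]
        exact hv' _ (hu' _ hx)
    · rintro u - ⟨hu, hu'⟩
      refine ⟨hu', ?_⟩
      rw [inv_inv]
      exact hu
  rintro ⟨hw2, hw4⟩
  have a2 : av a 2 = a 2 := by simp [av]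
  have a4 : av a 4 = a 4 := by simp [av]
  have a6 : av a 6 = a 6 := by simp [av]
  have a8 : av a 8 = a 8 := by simp [av]
  rw [a2, a6] at hw2
  rw [a4, a8] at hw4
  have hy : a 2 - a 4 = vz a ![0, 0, 1, 0, -1, 0, 0, 0, 0, 0, 0] := by
    simp [vz, Fin.sum_univ_succ]
    exact sub_eq_add_neg _ _
  have hy' : a 6 - a 8 = vz a ![0, 0, 0, 0, 0, 0, 1, 0, -1, 0, 0] := by
    simp [vz, Fin.sum_univ_succ]
    exact sub_eq_add_neg _ _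
  obtain ⟨y, hyL, hyy⟩ := h1 (a 2 - a 4) (by rw [hy]; exact vz_mem a _)
  obtain ⟨z, rfl⟩ := exists_vz hM a hyL
  have hgy : g (a 2 - a 4) ∈ Y1 a := by
    refine ⟨fun j => (![0, 0, 1, 0, -1, 0, 0, 0, 0, 0, 0] : Fin (10 + 1) → ℤ) j - (-2) * z j,
      ?_, ?_⟩
    · rw [← vz_sub, ← hy]
      rw [sub_eq_iff_eq_add] at hyy
      rw [hyy]
      push_cast
      rw [neg_smul, sub_neg_eq_add, add_comm]
    · simp only [PY]
      refine ⟨?_, ?_, ?_, ?_, ?_, ?_, ?_, ?_, ?_, ?_⟩ <;> simp <;> omega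
  have h2 := (key w hw).1 _ hgy
  rw [map_sub, map_sub, hw2, hw4, hy'] at h2
  obtain ⟨u, hu, hPu⟩ := h2
  have h3 := vz_inj a hu
  have h4 := hPu.2.2.2.1
  rw [← h3] at h4
  simp at h4

end Pool.Agent.CN3.H4

end
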